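import Pool.Agent.H78.UN.Targets
import Pool.Agent.H21.SR.Color

/-! Row HC of the board `un_modules`. -/

namespace Pool.Agent.H79.UN

open Finset Pool.Agent.H78.UN

theorem hc : T_HC := by
  intro k d
  obtain ⟨h, hh⟩ := Pool.Agent.H21.SR.exists_code k d
  refine ⟨h, fun x y hne hd heq => hne (hh x y ?_ heq)⟩
  unfold hammingDist at hd
  exact hd

end Pool.Agent.H79.UN
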