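import Pool.Agent.H78.UN.Targets

/-! Row XN of the board `un_modules`. -/

namespace Pool.Agent.H79.UN

open Finset Pool.Agent.H78.UN

/-- `x ^ x ≤ 4 ^ x * x!`. -/
lemma pow_le_fact (x : ℕ) : x ^ x ≤ 4 ^ x * x.factorial := by
  have h1 : (x : ℝ) ^ x / x.factorial ≤ Real.exp x :=
    Real.pow_div_factorial_le_exp (x : ℝ) (Nat.cast_nonneg x) x
  have h2 : Real.exp (x : ℝ) ≤ 4 ^ x := by
    have h3 : Real.exp (x : ℝ) = (Real.exp 1) ^ x := by
      rw [← Real.exp_nat_mul, mul_one]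
    rw [h3]
    exact pow_le_pow_left₀ (Real.exp_pos 1).le
      (Real.exp_one_lt_d9.le.trans (by norm_num)) x
  have h4 : (0 : ℝ) < x.factorial := by exact_mod_cast Nat.factorial_pos x
  have h5 : (x : ℝ) ^ x ≤ 4 ^ x * x.factorial := by
    rw [div_le_iff₀ h4] at h1
    exact h1.trans (mul_le_mul_of_nonneg_right h2 h4.le)
  exact_mod_cast h5

/-- `C(n, x) * x ^ x ≤ 4 ^ x * n ^ x`. -/
lemma choose_mul_pow_le (n x : ℕ) : n.choose x * x ^ x ≤ 4 ^ x * n ^ x := by
  have h1 : x.factorial * n.choose x ≤ n ^ x := by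
    rw [← Nat.descFactorial_eq_factorial_mul_choose]
    exact Nat.descFactorial_le_pow n x
  calc n.choose x * x ^ x ≤ n.choose x * (4 ^ x * x.factorial) :=
        Nat.mul_le_mul_left _ (pow_le_fact x)
    _ = 4 ^ x * (x.factorial * n.choose x) := by ring
    _ ≤ 4 ^ x * n ^ x := Nat.mul_le_mul_left _ h1

theorem xn : T_XN := by
  intro n M k r l d N x Y hr hl hk hM hN hY hx
  rcases Nat.eq_zero_or_pos x with h0 | hxp
  · subst h0
    have hYp : 0 < Y := by
      rw [hY]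
      exact lt_max_of_lt_left (Nat.mul_pos hr hN)
    rw [zero_pow hYp.ne', mul_zero, zero_mul]
    exact Nat.zero_le _
  · have hY1 : r * N ≤ Y := hY ▸ le_max_left _ _
    have hY2 : 2 * x ≤ Y := (Nat.mul_le_mul_right x hl).trans (hY ▸ le_max_right _ _)
    obtain ⟨y, hy⟩ : ∃ y, Y = x + y := ⟨Y - x, by omega⟩
    have hxy : x ≤ y := by omega
    have hry : r ≤ 2 * y := by
      have : r * 1 ≤ r * N := Nat.mul_le_mul_left r hN
      omega
    have hkN : k * N ≤ d * (2 * y) := by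
      calc k * N ≤ (d * r) * N := Nat.mul_le_mul_right _ hk
        _ = d * (r * N) := by ring
        _ ≤ d * (2 * y) := Nat.mul_le_mul_left _ (by omega)
    have hMN : M ^ N ≤ 2 ^ (k * N) := by
      calc M ^ N ≤ (2 ^ k) ^ N := Nat.pow_le_pow_left hM _
        _ = 2 ^ (k * N) := by rw [← pow_mul]
    subst hy
    calc M ^ N * n.choose x * 2 ^ (k * N) * x ^ (x + y) * 4 ^ r
        = (M ^ N * 2 ^ (k * N)) * (n.choose x * x ^ x) * x ^ y * 4 ^ r := by ring
      _ ≤ (2 ^ (k * N) * 2 ^ (k * N)) * (4 ^ x * n ^ x) * x ^ y * 4 ^ r := by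
          exact Nat.mul_le_mul_right _ (Nat.mul_le_mul_right _
            (Nat.mul_le_mul (Nat.mul_le_mul_right _ hMN) (choose_mul_pow_le n x)))
      _ = 2 ^ (2 * (k * N) + 2 * x + 2 * r) * (n ^ x * x ^ y) := by
          rw [show (4 : ℕ) = 2 ^ 2 by norm_num, ← pow_mul, ← pow_mul]
          ring
      _ ≤ 2 ^ ((4 * d + 6) * y) * (n ^ x * x ^ y) := by
          apply Nat.mul_le_mul_right
          apply Nat.pow_le_pow_right (by norm_num)
          nlinarith
      _ = n ^ x * (2 ^ (4 * d + 6) * x) ^ y := by rw [mul_pow, ← pow_mul]; ring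
      _ ≤ n ^ x * n ^ y := Nat.mul_le_mul_left _ (Nat.pow_le_pow_left hx _)
      _ = n ^ (x + y) := (pow_add _ _ _).symm

end Pool.Agent.H79.UN
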