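import Pool.Agent.H79.UN.XP
import Pool.Agent.H79.UN.XN

/-! Row XB of the board `un_modules`. -/

namespace Pool.Agent.H79.UN

open Finset Pool.Agent.H78.UN

/-- The bad event for fixed `N` and `X`. -/
def Bad {n M k : ℕ} (r l : ℕ) (N : Finset (Fin M)) (X : Finset (Fin n))
    (τ : Fin M → (Fin k ↪ Fin n)) : Prop :=
  (∀ c ∈ N, r ≤ (scp τ c ∩ X).card) ∧ l * X.card < ∑ c ∈ N, (scp τ c ∩ X).card

open Classical in
/-- The count, before the choice of `r`. -/
theorem xb_all {n M k p r l d : ℕ} (hr : 1 ≤ r) (hl : 2 ≤ l) (hk : k ≤ d * r) (hM : M ≤ 2 ^ k)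
    (hn : 2 ^ (4 * d + 6) * (k * p) ≤ l * n) :
    (univ.filter (fun τ : Fin M → (Fin k ↪ Fin n) => ¬ E5 (scp τ) p r l)).card * 4 ^ r ≤
      (p * (n + 1)) * Fintype.card (Fin M → (Fin k ↪ Fin n)) := by
  set T := Fintype.card (Fin M → (Fin k ↪ Fin n)) with hT
  -- the pairs (size of N, size of X)
  have hsub : (univ.filter (fun τ : Fin M → (Fin k ↪ Fin n) => ¬ E5 (scp τ) p r l)) ⊆
      ((Finset.Icc 1 p) ×ˢ (Finset.range (n + 1))).biUnion (fun q =>
        ((univ : Finset (Fin M)).powersetCard q.1 ×ˢ
          (univ : Finset (Fin n)).powersetCard q.2).biUnion (fun u =>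
          univ.filter (fun τ : Fin M → (Fin k ↪ Fin n) => Bad r l u.1 u.2 τ))) := by
    intro τ hτ
    rw [mem_filter] at hτ
    have h1 := hτ.2
    unfold E5 at h1
    push Not at h1
    obtain ⟨N, X, h2, h3, h4⟩ := h1
    have hN : 1 ≤ N.card := by
      rw [Nat.one_le_iff_ne_zero]
      intro h0
      rw [card_eq_zero] at h0
      subst h0
      simp at h4
    rw [mem_biUnion]
    refine ⟨(N.card, X.card), ?_, ?_⟩
    · rw [mem_product, mem_Icc, mem_range]
      refine ⟨⟨hN, h2⟩, ?_⟩
      have := card_le_univ X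
      rw [Fintype.card_fin] at this
      exact Nat.lt_succ_of_le this
    · rw [mem_biUnion]
      refine ⟨(N, X), ?_, ?_⟩
      · rw [mem_product, mem_powersetCard, mem_powersetCard]
        exact ⟨⟨subset_univ _, rfl⟩, subset_univ _, rfl⟩
      · rw [mem_filter]
        exact ⟨mem_univ _, h3, h4⟩
  have hone : ∀ q ∈ (Finset.Icc 1 p) ×ˢ (Finset.range (n + 1)),
      (((univ : Finset (Fin M)).powersetCard q.1 ×ˢ
          (univ : Finset (Fin n)).powersetCard q.2).biUnion (fun u =>
          univ.filter (fun τ : Fin M → (Fin k ↪ Fin n) => Bad r l u.1 u.2 τ))).card * 4 ^ r ≤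
        T := by
    intro q hq
    rw [mem_product, mem_Icc, mem_range] at hq
    obtain ⟨⟨hq1, hq2⟩, hq3⟩ := hq
    by_cases hx : 2 ^ (4 * d + 6) * q.2 ≤ n
    · set Y := max (r * q.1) (l * q.2) with hY
      have hnum := xn n M k r l d q.1 q.2 Y hr hl hk hM hq1 hY hx
      rcases Nat.eq_zero_or_pos n with h0 | hnp
      · -- no variables: the event is empty
        subst h0
        rw [show (((univ : Finset (Fin M)).powersetCard q.1 ×ˢ
          (univ : Finset (Fin 0)).powersetCard q.2).biUnion (fun u =>
          univ.filter (fun τ : Fin M → (Fin k ↪ Fin 0) => Bad r l u.1 u.2 τ))) = ∅ from ?_]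
        · rw [card_empty, zero_mul]
          exact Nat.zero_le _
        · rw [eq_empty_iff_forall_notMem]
          intro τ hτ
          rw [mem_biUnion] at hτ
          obtain ⟨u, hu, hb⟩ := hτ
          rw [mem_filter] at hb
          rw [mem_product, mem_powersetCard, mem_powersetCard] at hu
          have hne : u.1.Nonempty := by
            rw [← card_pos, hu.1.2]
            exact hq1
          obtain ⟨c, hc⟩ := hne
          have h5 := hb.2.1 c hc
          have h6 : (scp τ c ∩ u.2).card ≤ u.2.card := card_le_card inter_subset_right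
          have h7 := card_le_univ u.2
          rw [Fintype.card_fin] at h7
          omega
      · have hnY : 0 < n ^ Y := Nat.pow_pos hnp
        have h5 : (((univ : Finset (Fin M)).powersetCard q.1 ×ˢ
          (univ : Finset (Fin n)).powersetCard q.2).biUnion (fun u =>
          univ.filter (fun τ : Fin M → (Fin k ↪ Fin n) => Bad r l u.1 u.2 τ))).card * n ^ Y ≤
            (M ^ q.1 * n.choose q.2 * 2 ^ (k * q.1) * q.2 ^ Y) * T := by
          calc _ ≤ (∑ u ∈ (univ : Finset (Fin M)).powersetCard q.1 ×ˢ
                (univ : Finset (Fin n)).powersetCard q.2,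
                (univ.filter (fun τ : Fin M → (Fin k ↪ Fin n) => Bad r l u.1 u.2 τ)).card) *
                n ^ Y := Nat.mul_le_mul_right _ card_biUnion_le
            _ = ∑ u ∈ (univ : Finset (Fin M)).powersetCard q.1 ×ˢ
                (univ : Finset (Fin n)).powersetCard q.2,
                (univ.filter (fun τ : Fin M → (Fin k ↪ Fin n) => Bad r l u.1 u.2 τ)).card *
                n ^ Y := sum_mul _ _ _
            _ ≤ ∑ u ∈ (univ : Finset (Fin M)).powersetCard q.1 ×ˢ
                (univ : Finset (Fin n)).powersetCard q.2,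
                2 ^ (k * q.1) * q.2 ^ Y * T := by
                refine sum_le_sum fun u hu => ?_
                rw [mem_product, mem_powersetCard, mem_powersetCard] at hu
                have h6 := xp n M k r l u.1 u.2
                rw [hu.1.2, hu.2.2] at h6
                have h7 : (univ.filter (fun τ : Fin M → (Fin k ↪ Fin n) =>
                    Bad r l u.1 u.2 τ)).card ≤
                    (univ.filter (fun τ : Fin M → (Fin k ↪ Fin n) =>
                    (∀ c ∈ u.1, r ≤ (scp τ c ∩ u.2).card) ∧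
                      l * q.2 < ∑ c ∈ u.1, (scp τ c ∩ u.2).card)).card := by
                  apply card_le_card
                  intro τ hτ
                  rw [mem_filter] at hτ ⊢
                  refine ⟨hτ.1, hτ.2.1, ?_⟩
                  have := hτ.2.2
                  rw [hu.2.2] at this
                  exact this
                exact (Nat.mul_le_mul_right _ h7).trans h6
            _ = (M.choose q.1 * n.choose q.2) * (2 ^ (k * q.1) * q.2 ^ Y * T) := by
                rw [sum_const, smul_eq_mul, card_product, card_powersetCard, card_powersetCard,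
                  card_univ, card_univ, Fintype.card_fin, Fintype.card_fin]
            _ ≤ (M ^ q.1 * n.choose q.2) * (2 ^ (k * q.1) * q.2 ^ Y * T) :=
                Nat.mul_le_mul_right _ (Nat.mul_le_mul_right _ (Nat.choose_le_pow _ _))
            _ = _ := by ring
        refine Nat.le_of_mul_le_mul_right (c := n ^ Y) ?_ hnY
        calc _ = (((univ : Finset (Fin M)).powersetCard q.1 ×ˢ
          (univ : Finset (Fin n)).powersetCard q.2).biUnion (fun u =>
          univ.filter (fun τ : Fin M → (Fin k ↪ Fin n) => Bad r l u.1 u.2 τ))).card * n ^ Y *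
            4 ^ r := by ring
          _ ≤ (M ^ q.1 * n.choose q.2 * 2 ^ (k * q.1) * q.2 ^ Y) * T * 4 ^ r :=
            Nat.mul_le_mul_right _ h5
          _ = (M ^ q.1 * n.choose q.2 * 2 ^ (k * q.1) * q.2 ^ Y * 4 ^ r) * T := by ring
          _ ≤ n ^ Y * T := Nat.mul_le_mul_right _ hnum
          _ = T * n ^ Y := mul_comm _ _
    · -- `X` is too large for the event
      rw [show (((univ : Finset (Fin M)).powersetCard q.1 ×ˢ
          (univ : Finset (Fin n)).powersetCard q.2).biUnion (fun u =>
          univ.filter (fun τ : Fin M → (Fin k ↪ Fin n) => Bad r l u.1 u.2 τ))) = ∅ from ?_]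
      · rw [card_empty, zero_mul]
        exact Nat.zero_le _
      · rw [eq_empty_iff_forall_notMem]
        intro τ hτ
        rw [mem_biUnion] at hτ
        obtain ⟨u, hu, hb⟩ := hτ
        rw [mem_filter] at hb
        rw [mem_product, mem_powersetCard, mem_powersetCard] at hu
        have h5 : ∑ c ∈ u.1, (scp τ c ∩ u.2).card ≤ p * k := by
          calc ∑ c ∈ u.1, (scp τ c ∩ u.2).card ≤ ∑ c ∈ u.1, k := by
                refine sum_le_sum fun c _ => ?_
                refine (card_le_card inter_subset_left).trans ?_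
                rw [scp, card_map, card_univ, Fintype.card_fin]
            _ = u.1.card * k := by rw [sum_const, smul_eq_mul]
            _ ≤ p * k := Nat.mul_le_mul_right _ (by rw [hu.1.2]; exact hq2)
        have h6 := hb.2.2
        rw [hu.2.2] at h6
        have h7 : l * q.2 < p * k := lt_of_lt_of_le h6 h5
        have h8 : l * (2 ^ (4 * d + 6) * q.2) ≤ l * n := by
          calc l * (2 ^ (4 * d + 6) * q.2) = 2 ^ (4 * d + 6) * (l * q.2) := by ring
            _ ≤ 2 ^ (4 * d + 6) * (k * p) := Nat.mul_le_mul_left _ (by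
                rw [mul_comm k p]; exact h7.le)
            _ ≤ l * n := hn
        exact hx (Nat.le_of_mul_le_mul_left h8 (by omega))
  · calc _ ≤ (∑ q ∈ (Finset.Icc 1 p) ×ˢ (Finset.range (n + 1)),
          (((univ : Finset (Fin M)).powersetCard q.1 ×ˢ
          (univ : Finset (Fin n)).powersetCard q.2).biUnion (fun u =>
          univ.filter (fun τ : Fin M → (Fin k ↪ Fin n) => Bad r l u.1 u.2 τ))).card) * 4 ^ r :=
          Nat.mul_le_mul_right _ ((card_le_card hsub).trans card_biUnion_le)
      _ = ∑ q ∈ (Finset.Icc 1 p) ×ˢ (Finset.range (n + 1)),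
          (((univ : Finset (Fin M)).powersetCard q.1 ×ˢ
          (univ : Finset (Fin n)).powersetCard q.2).biUnion (fun u =>
          univ.filter (fun τ : Fin M → (Fin k ↪ Fin n) => Bad r l u.1 u.2 τ))).card * 4 ^ r :=
          sum_mul _ _ _
      _ ≤ ∑ q ∈ (Finset.Icc 1 p) ×ˢ (Finset.range (n + 1)), T := sum_le_sum hone
      _ = _ := by
          rw [sum_const, smul_eq_mul, card_product, Nat.card_Icc, card_range,
            Nat.add_sub_cancel]

open Classical in
theorem xb : T_XB := by
  intro n M k p r l d hr hl hk hM hn hp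
  have hall := xb_all hr hl hk hM hn
  set T := Fintype.card (Fin M → (Fin k ↪ Fin n)) with hT
  have h4 : 0 < 4 ^ r := Nat.pow_pos (by norm_num)
  refine Nat.le_of_mul_le_mul_right (c := 4 ^ r) ?_ h4
  calc _ = 4 * ((univ.filter (fun τ : Fin M → (Fin k ↪ Fin n) =>
          ¬ E5 (scp τ) p r l)).card * 4 ^ r) := by ring
    _ ≤ 4 * ((p * (n + 1)) * T) := Nat.mul_le_mul_left _ hall
    _ = (4 * ((n + 1) * p)) * T := by ring
    _ ≤ 4 ^ r * T := by
        apply Nat.mul_le_mul_right
        refine le_trans ?_ hp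
        gcongr
        omega
    _ = T * 4 ^ r := mul_comm _ _

open Classical in
/-- The strict form. -/
theorem xb_strict {n M k p r l d : ℕ} (hr : 1 ≤ r) (hl : 2 ≤ l) (hk : k ≤ d * r)
    (hM : M ≤ 2 ^ k) (hn : 2 ^ (4 * d + 6) * (k * p) ≤ l * n)
    (hp : 4 * ((n + 1) * (p + 1)) ≤ 4 ^ r)
    (hT : 0 < Fintype.card (Fin M → (Fin k ↪ Fin n))) :
    4 * (univ.filter (fun τ : Fin M → (Fin k ↪ Fin n) => ¬ E5 (scp τ) p r l)).card <
      Fintype.card (Fin M → (Fin k ↪ Fin n)) := by
  have hall := xb_all hr hl hk hM hn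
  have h4 : 0 < 4 ^ r := Nat.pow_pos (by norm_num)
  refine Nat.lt_of_mul_lt_mul_right (a := 4 ^ r) ?_
  calc 4 * (univ.filter (fun τ : Fin M → (Fin k ↪ Fin n) => ¬ E5 (scp τ) p r l)).card * 4 ^ r
      = 4 * ((univ.filter (fun τ : Fin M → (Fin k ↪ Fin n) =>
          ¬ E5 (scp τ) p r l)).card * 4 ^ r) := by ring
    _ ≤ 4 * ((p * (n + 1)) * Fintype.card (Fin M → (Fin k ↪ Fin n))) :=
        Nat.mul_le_mul_left _ hall
    _ = (4 * ((n + 1) * p)) * Fintype.card (Fin M → (Fin k ↪ Fin n)) := by ring
    _ < (4 * ((n + 1) * (p + 1))) * Fintype.card (Fin M → (Fin k ↪ Fin n)) := by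
        refine Nat.mul_lt_mul_of_pos_right ?_ hT
        refine Nat.mul_lt_mul_of_pos_left ?_ (by norm_num)
        exact Nat.mul_lt_mul_of_pos_left (Nat.lt_succ_self p) (Nat.succ_pos n)
    _ ≤ 4 ^ r * Fintype.card (Fin M → (Fin k ↪ Fin n)) := Nat.mul_le_mul_right _ hp
    _ = _ := mul_comm _ _

end Pool.Agent.H79.UN
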