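import Pool.Agent.H79.UN.Emb

/-! Rows XP and XA of the board `un_modules`. -/

namespace Pool.Agent.H79.UN

open Finset Pool.Agent.H78.UN

/-- The number of pairs with value in `X`. -/
lemma sum_scp {n M k : ℕ} (τ : Fin M → (Fin k ↪ Fin n)) (N : Finset (Fin M))
    (X : Finset (Fin n)) :
    ((N ×ˢ (univ : Finset (Fin k))).filter (fun p => τ p.1 p.2 ∈ X)).card =
      ∑ c ∈ N, (scp τ c ∩ X).card := by
  classical
  rw [card_filter, sum_product]
  refine sum_congr rfl fun c _ => ?_
  rw [← card_filter]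
  have : scp τ c ∩ X = (univ.filter (fun j => τ c j ∈ X)).map (τ c) := by
    ext x
    simp only [scp, mem_inter, mem_map, mem_univ, true_and, mem_filter]
    constructor
    · rintro ⟨⟨j, rfl⟩, hx⟩
      exact ⟨j, hx, rfl⟩
    · rintro ⟨j, hj, rfl⟩
      exact ⟨⟨j, rfl⟩, hj⟩
  rw [this, card_map]

theorem xp : T_XP := by
  classical
  intro n M k r l N X
  set Y := max (r * N.card) (l * X.card) with hY
  set T := Fintype.card (Fin M → (Fin k ↪ Fin n)) with hT
  set QQ := (N ×ˢ (univ : Finset (Fin k))).powerset.filter (fun Q => Y ≤ Q.card) with hQQ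
  have hsub : (univ.filter (fun τ : Fin M → (Fin k ↪ Fin n) =>
      (∀ c ∈ N, r ≤ (scp τ c ∩ X).card) ∧ l * X.card < ∑ c ∈ N, (scp τ c ∩ X).card)) ⊆
      QQ.biUnion (fun Q => univ.filter (fun τ : Fin M → (Fin k ↪ Fin n) =>
        ∀ p ∈ Q, τ p.1 p.2 ∈ X)) := by
    intro τ hτ
    rw [mem_filter] at hτ
    obtain ⟨-, h1, h2⟩ := hτ
    rw [mem_biUnion]
    refine ⟨(N ×ˢ (univ : Finset (Fin k))).filter (fun p => τ p.1 p.2 ∈ X), ?_, ?_⟩
    · rw [hQQ, mem_filter, mem_powerset, sum_scp]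
      refine ⟨filter_subset _ _, ?_⟩
      rw [hY, max_le_iff]
      refine ⟨?_, h2.le⟩
      calc r * N.card = ∑ c ∈ N, r := by rw [sum_const, smul_eq_mul, mul_comm]
        _ ≤ _ := sum_le_sum h1
    · rw [mem_filter]
      exact ⟨mem_univ _, fun p hp => (mem_filter.1 hp).2⟩
  calc (univ.filter (fun τ : Fin M → (Fin k ↪ Fin n) =>
      (∀ c ∈ N, r ≤ (scp τ c ∩ X).card) ∧ l * X.card < ∑ c ∈ N, (scp τ c ∩ X).card)).card * n ^ Y
      ≤ (∑ Q ∈ QQ, (univ.filter (fun τ : Fin M → (Fin k ↪ Fin n) =>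
        ∀ p ∈ Q, τ p.1 p.2 ∈ X)).card) * n ^ Y :=
        Nat.mul_le_mul_right _ ((card_le_card hsub).trans card_biUnion_le)
    _ = ∑ Q ∈ QQ, (univ.filter (fun τ : Fin M → (Fin k ↪ Fin n) =>
        ∀ p ∈ Q, τ p.1 p.2 ∈ X)).card * n ^ Y := sum_mul _ _ _
    _ ≤ ∑ Q ∈ QQ, X.card ^ Y * T := sum_le_sum fun Q hQ =>
        emb_ge X Q Y (by rw [hQQ, mem_filter] at hQ; exact hQ.2)
    _ = QQ.card * (X.card ^ Y * T) := by rw [sum_const, smul_eq_mul]
    _ ≤ 2 ^ (k * N.card) * (X.card ^ Y * T) := by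
        apply Nat.mul_le_mul_right
        refine (card_filter_le _ _).trans ?_
        rw [card_powerset, card_product, card_univ, Fintype.card_fin, mul_comm]
    _ = 2 ^ (k * N.card) * X.card ^ Y * T := by rw [mul_assoc]

theorem xa : T_XA := by
  classical
  intro n M k p e h
  set T := Fintype.card (Fin M → (Fin k ↪ Fin n)) with hT
  rcases Nat.eq_zero_or_pos n with hn | hn
  · subst hn
    rw [filter_eq_empty_iff.2, card_empty]
    · exact Nat.zero_le _
    · intro τ _
      rw [not_not]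
      intro J _
      rw [Fintype.card_fin]
      exact Nat.zero_le _
  have hpos : 0 < n ^ (k * p) := Nat.pow_pos hn
  have hsub : (univ.filter (fun τ : Fin M → (Fin k ↪ Fin n) => ¬ E1 (scp τ) p e)) ⊆
      ((univ : Finset (Fin M)).powersetCard p ×ˢ
        ((univ : Finset (Fin n)).powerset.filter (fun R => R.card ≤ n - e))).biUnion (fun q =>
        univ.filter (fun τ : Fin M → (Fin k ↪ Fin n) =>
          ∀ a ∈ q.1 ×ˢ (univ : Finset (Fin k)), τ a.1 a.2 ∈ q.2)) := by
    intro τ hτ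
    rw [mem_filter] at hτ
    have h1 := hτ.2
    unfold E1 at h1
    push Not at h1
    obtain ⟨J, hJ, h2⟩ := h1
    rw [Fintype.card_fin] at h2
    rw [mem_biUnion]
    refine ⟨(J, VJ (scp τ) J), ?_, ?_⟩
    · rw [mem_product, mem_powersetCard, mem_filter, mem_powerset]
      refine ⟨⟨subset_univ _, hJ⟩, subset_univ _, ?_⟩
      show (VJ (scp τ) J).card ≤ n - e
      omega
    · rw [mem_filter]
      refine ⟨mem_univ _, fun a ha => ?_⟩
      rw [mem_product] at ha
      simp only [VJ, mem_biUnion]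
      exact ⟨a.1, ha.1, by simp [scp]⟩
  have hcount : (univ.filter (fun τ : Fin M → (Fin k ↪ Fin n) => ¬ E1 (scp τ) p e)).card *
      n ^ (k * p) ≤ (2 ^ n * M ^ p * (n - e) ^ (k * p)) * T := by
    calc (univ.filter (fun τ : Fin M → (Fin k ↪ Fin n) => ¬ E1 (scp τ) p e)).card * n ^ (k * p)
        ≤ (∑ q ∈ ((univ : Finset (Fin M)).powersetCard p ×ˢ
        ((univ : Finset (Fin n)).powerset.filter (fun R => R.card ≤ n - e))),
          (univ.filter (fun τ : Fin M → (Fin k ↪ Fin n) =>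
          ∀ a ∈ q.1 ×ˢ (univ : Finset (Fin k)), τ a.1 a.2 ∈ q.2)).card) * n ^ (k * p) :=
          Nat.mul_le_mul_right _ ((card_le_card hsub).trans card_biUnion_le)
      _ = ∑ q ∈ ((univ : Finset (Fin M)).powersetCard p ×ˢ
        ((univ : Finset (Fin n)).powerset.filter (fun R => R.card ≤ n - e))),
          (univ.filter (fun τ : Fin M → (Fin k ↪ Fin n) =>
          ∀ a ∈ q.1 ×ˢ (univ : Finset (Fin k)), τ a.1 a.2 ∈ q.2)).card * n ^ (k * p) :=
          sum_mul _ _ _
      _ ≤ ∑ q ∈ ((univ : Finset (Fin M)).powersetCard p ×ˢ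
        ((univ : Finset (Fin n)).powerset.filter (fun R => R.card ≤ n - e))),
          (n - e) ^ (k * p) * T := by
          refine sum_le_sum fun q hq => ?_
          rw [mem_product, mem_powersetCard, mem_filter] at hq
          have hc : (q.1 ×ˢ (univ : Finset (Fin k))).card = k * p := by
            rw [card_product, card_univ, Fintype.card_fin, hq.1.2, mul_comm]
          have := emb q.2 (q.1 ×ˢ (univ : Finset (Fin k)))
          rw [hc] at this
          exact this.trans (Nat.mul_le_mul_right _ (Nat.pow_le_pow_left hq.2.2 _))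
      _ = ((univ : Finset (Fin M)).powersetCard p ×ˢ
        ((univ : Finset (Fin n)).powerset.filter (fun R => R.card ≤ n - e))).card *
          ((n - e) ^ (k * p) * T) := by rw [sum_const, smul_eq_mul]
      _ ≤ (M ^ p * 2 ^ n) * ((n - e) ^ (k * p) * T) := by
          apply Nat.mul_le_mul_right
          rw [card_product, card_powersetCard, card_univ, Fintype.card_fin]
          apply Nat.mul_le_mul (Nat.choose_le_pow _ _)
          refine (card_filter_le _ _).trans ?_
          rw [card_powerset, card_univ, Fintype.card_fin]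
      _ = _ := by ring
  have h3 : (4 * (univ.filter (fun τ : Fin M → (Fin k ↪ Fin n) => ¬ E1 (scp τ) p e)).card) *
      n ^ (k * p) ≤ T * n ^ (k * p) := by
    calc _ = 4 * ((univ.filter (fun τ : Fin M → (Fin k ↪ Fin n) => ¬ E1 (scp τ) p e)).card *
          n ^ (k * p)) := by ring
      _ ≤ 4 * ((2 ^ n * M ^ p * (n - e) ^ (k * p)) * T) := Nat.mul_le_mul_left _ hcount
      _ = (4 * (2 ^ n * M ^ p * (n - e) ^ (k * p))) * T := by ring
      _ ≤ n ^ (k * p) * T := Nat.mul_le_mul_right _ h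
      _ = _ := by ring
  exact Nat.le_of_mul_le_mul_right h3 hpos

end Pool.Agent.H79.UN
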