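import Pool.Agent.H78.UN.Targets

/-! Random families of embeddings: probability that given places lie in a given set. -/

namespace Pool.Agent.H79.UN

open Finset Pool.Agent.H78.UN

/-- One more place. -/
lemma emb_step {n M k : ℕ} (X : Finset (Fin n)) (Q : Finset (Fin M × Fin k))
    (a : Fin M × Fin k) (haQ : a ∉ Q) :
    (univ.filter (fun τ : Fin M → (Fin k ↪ Fin n) => ∀ p ∈ insert a Q, τ p.1 p.2 ∈ X)).card * n ≤
      X.card * (univ.filter (fun τ : Fin M → (Fin k ↪ Fin n) => ∀ p ∈ Q, τ p.1 p.2 ∈ X)).card := by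
  classical
  have h1 : (univ.filter (fun τ : Fin M → (Fin k ↪ Fin n) =>
      ∀ p ∈ insert a Q, τ p.1 p.2 ∈ X)).card * n =
      ((univ.filter (fun τ : Fin M → (Fin k ↪ Fin n) => ∀ p ∈ insert a Q, τ p.1 p.2 ∈ X)) ×ˢ
        (univ : Finset (Fin n))).card := by
    rw [card_product, card_univ, Fintype.card_fin]
  have h2 : X.card * (univ.filter (fun τ : Fin M → (Fin k ↪ Fin n) =>
      ∀ p ∈ Q, τ p.1 p.2 ∈ X)).card =
      (X ×ˢ (univ.filter (fun τ : Fin M → (Fin k ↪ Fin n) => ∀ p ∈ Q, τ p.1 p.2 ∈ X))).card := by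
    rw [card_product]
  rw [h1, h2]
  let f : (Fin M → (Fin k ↪ Fin n)) × Fin n → Fin n × (Fin M → (Fin k ↪ Fin n)) := fun q =>
    (q.1 a.1 a.2, Function.update q.1 a.1
      ((q.1 a.1).trans (Equiv.swap (q.1 a.1 a.2) q.2).toEmbedding))
  apply card_le_card_of_injOn f
  · rintro ⟨τ, v⟩ hq
    rw [coe_product, Set.mem_prod] at hq
    have hq1 := (mem_filter.1 (mem_coe.1 hq.1)).2
    rw [coe_product, Set.mem_prod]
    refine ⟨mem_coe.2 (hq1 a (mem_insert_self _ _)), mem_coe.2 (mem_filter.2 ⟨mem_univ _, ?_⟩)⟩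
    rintro ⟨c, j⟩ hp
    have hX := hq1 (c, j) (mem_insert_of_mem hp)
    have hXa := hq1 a (mem_insert_self _ _)
    simp only [f]
    by_cases hc : c = a.1
    · subst hc
      rw [Function.update_self]
      simp only [Function.Embedding.trans_apply, Equiv.coe_toEmbedding]
      by_cases h3 : τ a.1 j = τ a.1 a.2
      · have : j = a.2 := (τ a.1).injective h3
        rw [this] at hp
        exact absurd hp haQ
      · by_cases h4 : τ a.1 j = v
        · rw [h4, Equiv.swap_apply_right]
          exact hXa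
        · rw [Equiv.swap_apply_of_ne_of_ne h3 h4]
          exact hX
    · rw [Function.update_of_ne hc]
      exact hX
  · rintro ⟨τ, v⟩ - ⟨τ', v'⟩ - heq
    simp only [f, Prod.mk.injEq] at heq
    obtain ⟨hy, hu⟩ := heq
    have hv : v = v' := by
      have h3 := congrArg (fun g : Fin M → (Fin k ↪ Fin n) => g a.1 a.2) hu
      simp only [Function.update_self, Function.Embedding.trans_apply, Equiv.coe_toEmbedding,
        Equiv.swap_apply_left] at h3
      exact h3
    subst hv
    rw [Prod.mk.injEq]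
    refine ⟨?_, rfl⟩
    funext c
    by_cases hc : c = a.1
    · subst hc
      have h3 := congrArg (fun g : Fin M → (Fin k ↪ Fin n) => g a.1) hu
      simp only [Function.update_self] at h3
      rw [hy] at h3
      apply Function.Embedding.ext
      intro j
      have h4 := congrArg (fun g : Fin k ↪ Fin n => g j) h3
      simp only [Function.Embedding.trans_apply, Equiv.coe_toEmbedding] at h4
      exact (Equiv.injective _) h4
    · have h3 := congrArg (fun g : Fin M → (Fin k ↪ Fin n) => g c) hu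
      simp only [Function.update_of_ne hc] at h3
      exact h3

/-- All places of `Q` in `X`. -/
lemma emb {n M k : ℕ} (X : Finset (Fin n)) (Q : Finset (Fin M × Fin k)) :
    (univ.filter (fun τ : Fin M → (Fin k ↪ Fin n) => ∀ p ∈ Q, τ p.1 p.2 ∈ X)).card *
      n ^ Q.card ≤ X.card ^ Q.card * Fintype.card (Fin M → (Fin k ↪ Fin n)) := by
  classical
  induction Q using Finset.induction_on with
  | empty =>
    rw [card_empty, pow_zero, pow_zero, mul_one, one_mul]
    exact card_le_univ _
  | insert a Q ha ih =>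
    have h1 := emb_step X Q a ha
    rw [card_insert_of_notMem ha]
    calc (univ.filter (fun τ : Fin M → (Fin k ↪ Fin n) =>
          ∀ p ∈ insert a Q, τ p.1 p.2 ∈ X)).card * n ^ (Q.card + 1)
        = ((univ.filter (fun τ : Fin M → (Fin k ↪ Fin n) =>
          ∀ p ∈ insert a Q, τ p.1 p.2 ∈ X)).card * n) * n ^ Q.card := by ring
      _ ≤ (X.card * (univ.filter (fun τ : Fin M → (Fin k ↪ Fin n) =>
          ∀ p ∈ Q, τ p.1 p.2 ∈ X)).card) * n ^ Q.card := Nat.mul_le_mul_right _ h1
      _ = X.card * ((univ.filter (fun τ : Fin M → (Fin k ↪ Fin n) =>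
          ∀ p ∈ Q, τ p.1 p.2 ∈ X)).card * n ^ Q.card) := by ring
      _ ≤ X.card * (X.card ^ Q.card * Fintype.card (Fin M → (Fin k ↪ Fin n))) :=
          Nat.mul_le_mul_left _ ih
      _ = X.card ^ (Q.card + 1) * Fintype.card (Fin M → (Fin k ↪ Fin n)) := by ring

/-- At least `Y` places in `X`, with exponent `Y`. -/
lemma emb_ge {n M k : ℕ} (X : Finset (Fin n)) (Q : Finset (Fin M × Fin k)) (Y : ℕ)
    (hY : Y ≤ Q.card) :
    (univ.filter (fun τ : Fin M → (Fin k ↪ Fin n) => ∀ p ∈ Q, τ p.1 p.2 ∈ X)).card *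
      n ^ Y ≤ X.card ^ Y * Fintype.card (Fin M → (Fin k ↪ Fin n)) := by
  classical
  obtain ⟨Q', hQ', hc⟩ := exists_subset_card_eq hY
  subst hc
  refine le_trans (Nat.mul_le_mul_right _ (card_le_card ?_)) (emb X Q')
  intro τ hτ
  rw [mem_filter] at hτ ⊢
  exact ⟨hτ.1, fun p hp => hτ.2 p (hQ' hp)⟩

end Pool.Agent.H79.UN
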